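import Pool.Agent.W845.HC.Base

set_option autoImplicit false
open scoped Classical
open Filter Topology
open scoped BigOperators

namespace Pool.Agent.W705.HC

open Pool.Agent.W845.PM Pool.Agent.W845.HC

noncomputable section

theorem dg_two {V : Type} [Fintype V] (F : SimpleGraph V) (v a b : V) (ha : F.Adj v a)
    (hb : F.Adj v b) (hab : a ≠ b) : 2 ≤ dg F v := by
  unfold dg
  have h : ({a, b} : Finset V) ⊆ Finset.univ.filter (fun w => F.Adj v w) := by
    intro w hw
    simp only [Finset.mem_insert, Finset.mem_singleton] at hw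
    rcases hw with rfl | rfl
    · simpa using ha
    · simpa using hb
  calc 2 = ({a, b} : Finset V).card := (Finset.card_pair hab).symm
    _ ≤ _ := Finset.card_le_card h

theorem dg_three {V : Type} [Fintype V] (F : SimpleGraph V) (v a b c : V) (ha : F.Adj v a)
    (hb : F.Adj v b) (hc : F.Adj v c) (hab : a ≠ b) (hac : a ≠ c) (hbc : b ≠ c) :
    3 ≤ dg F v := by
  unfold dg
  have h : ({a, b, c} : Finset V) ⊆ Finset.univ.filter (fun w => F.Adj v w) := by
    intro w hw
    simp only [Finset.mem_insert, Finset.mem_singleton] at hw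
    rcases hw with rfl | rfl | rfl
    · simpa using ha
    · simpa using hb
    · simpa using hc
  calc 3 = ({a, b, c} : Finset V).card := (Finset.card_eq_three.2 ⟨a, b, c, hab, hac, hbc, rfl⟩).symm
    _ ≤ _ := Finset.card_le_card h

theorem connected_of (hFC : S_FC) {V : Type} [Fintype V] (F : SimpleGraph V) (hac : F.IsAcyclic)
    (h1 : 1 ≤ Fintype.card V) (hec : ec F = Fintype.card V - 1) (x y : V) : F.Reachable x y := by
  have h := hFC V F hac
  have h2 : Nat.card F.ConnectedComponent = 1 := by omega
  obtain ⟨c, hc⟩ := Nat.card_eq_one_iff_exists.1 h2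
  have h3 : F.connectedComponentMk x = F.connectedComponentMk y := by
    rw [hc (F.connectedComponentMk x), hc (F.connectedComponentMk y)]
  exact SimpleGraph.ConnectedComponent.exact h3

/-- the path between the two ends visits every vertex -/
theorem all_mem {V : Type} [Fintype V] (F : SimpleGraph V) (x y : V) (hdeg : ∀ v, dg F v ≤ 2)
    (hconn : ∀ a b : V, F.Reachable a b) (hxy : x ≠ y) (hx : dg F x ≤ 1) (hy : dg F y ≤ 1)
    (p : F.Walk x y) (hp : p.IsPath) (w : V) : w ∈ p.support := by
  by_contra hw
  obtain ⟨q⟩ := hconn x w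
  obtain ⟨d, -, hd1, hd2⟩ := q.exists_boundary_dart {v | v ∈ p.support} p.start_mem_support hw
  have hd1 : d.fst ∈ p.support := hd1
  have hd2 : d.snd ∉ p.support := hd2
  obtain ⟨i, hi, hil⟩ := SimpleGraph.Walk.mem_support_iff_exists_getVert.1 hd1
  have hlen : p.length ≠ 0 := by
    intro h0
    exact hxy (SimpleGraph.Walk.eq_of_length_eq_zero h0)
  have hadj : F.Adj d.fst d.snd := d.adj
  have hnext : ∀ j, j < p.length → F.Adj (p.getVert j) (p.getVert (j + 1)) := fun j hj =>
    p.adj_getVert_succ hj
  have hne : ∀ j, d.snd ≠ p.getVert j := by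
    intro j h
    apply hd2
    rw [h]
    exact p.getVert_mem_support j
  by_cases hi0 : i = 0
  · subst hi0
    rw [SimpleGraph.Walk.getVert_zero] at hi
    have h1 := hnext 0 (by omega)
    rw [SimpleGraph.Walk.getVert_zero] at h1
    have := dg_two F x d.snd (p.getVert (0 + 1)) (by rw [hi]; exact hadj) h1 (hne _)
    omega
  · by_cases hil' : i = p.length
    · subst hil'
      rw [SimpleGraph.Walk.getVert_length] at hi
      have h1 := hnext (p.length - 1) (by omega)
      rw [show p.length - 1 + 1 = p.length by omega, SimpleGraph.Walk.getVert_length] at h1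
      have := dg_two F y d.snd (p.getVert (p.length - 1)) (by rw [hi]; exact hadj) h1.symm (hne _)
      omega
    · have h1 := hnext i (by omega)
      have h2 := hnext (i - 1) (by omega)
      rw [show i - 1 + 1 = i by omega] at h2
      have h3 : p.getVert (i + 1) ≠ p.getVert (i - 1) := by
        intro h
        have := hp.getVert_injOn (by simp; omega) (by simp; omega) h
        omega
      have := dg_three F (p.getVert i) d.snd (p.getVert (i + 1)) (p.getVert (i - 1))
        (by rw [hi]; exact hadj) h1 h2.symm (hne _) (hne _) h3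
      have := hdeg (p.getVert i)
      omega

theorem close : S_FC → S_CLOSE := by
  intro hFC V _ F G x y hV hF hec hxy hx hy hFG hG
  have hconn := connected_of hFC F hF.1 (by omega) hec
  obtain ⟨p, hp⟩ := (hconn x y).exists_isPath
  have hall := all_mem F x y hF.2 hconn hxy hx hy p hp
  have hham : p.IsHamiltonian := hp.isHamiltonian_of_mem hall
  have hlen : p.length = Fintype.card V - 1 := hham.length_eq
  intro _
  refine ⟨y, SimpleGraph.Walk.cons hG.symm (p.mapLe hFG), ?_⟩
  rw [SimpleGraph.Walk.isHamiltonianCycle_iff_isCycle_and_support_count_tail_eq_one]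
  refine ⟨?_, ?_⟩
  · rw [SimpleGraph.Walk.cons_isCycle_iff]
    refine ⟨hp.mapLe hFG, ?_⟩
    intro hmem
    have hmem' : s(y, x) ∈ p.edges := by simpa using hmem
    have hadj : F.Adj x y := (p.adj_of_mem_edges hmem').symm
    have hpath : (SimpleGraph.Walk.cons hadj SimpleGraph.Walk.nil).IsPath := by
      simp [SimpleGraph.Walk.cons_isPath_iff, hxy]
    have heq := hF.1.path_unique ⟨p, hp⟩ ⟨_, hpath⟩
    have h2 := congrArg (fun P : F.Path x y => P.1.length) heq
    simp at h2
    omega
  · intro a
    rw [SimpleGraph.Walk.support_cons, List.tail_cons]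
    have h1 : (p.mapLe hFG).support = p.support := by simp
    rw [h1]
    exact hham a

end

end Pool.Agent.W705.HC
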