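import Pool.Agent.W845.HC.Base

set_option autoImplicit false
open scoped Classical
open Filter Topology
open scoped BigOperators

namespace Pool.Agent.W705.HC

open Pool.Agent.W845.PM Pool.Agent.W845.HC

noncomputable section

theorem cont_EG (m : ℕ) (f : SimpleGraph (Fin m) → ℝ) : Continuous (fun p : ℝ => EG m p f) := by
  unfold EG wt
  fun_prop

theorem lam_of_empty {V : Type} [Fintype V] (G : SimpleGraph V) (h : G.edgeSet.ncard = 0) :
    lam G = 0 := by
  have h1 : G.edgeSet = ∅ := (Set.ncard_eq_zero (Set.toFinite _)).1 h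
  have h2 : G = ⊥ := by
    rw [← SimpleGraph.edgeSet_eq_empty]; exact h1
  unfold lam
  rw [← Nat.le_zero]
  refine Finset.sup_le ?_
  intro F hF
  have hF1 : F ≤ G := (Finset.mem_filter.1 hF).2.1
  have hF2 : F = ⊥ := by rw [h2] at hF1; exact le_bot_iff.1 hF1
  rw [hF2]
  unfold ec
  simp

theorem eq_top {m : ℕ} (G : SimpleGraph (Fin m)) (h : m.choose 2 ≤ G.edgeSet.ncard) : G = ⊤ := by
  have h1 : (⊤ : SimpleGraph (Fin m)).edgeSet.ncard = m.choose 2 := by
    rw [← SimpleGraph.coe_edgeFinset, Set.ncard_coe_finset,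
      SimpleGraph.card_edgeFinset_top_eq_card_choose_two, Fintype.card_fin]
  have h2 : G.edgeSet ⊆ (⊤ : SimpleGraph (Fin m)).edgeSet := SimpleGraph.edgeSet_mono le_top
  have h3 := Set.eq_of_subset_of_ncard_le h2 (by rw [h1]; exact h) (Set.toFinite _)
  exact SimpleGraph.edgeSet_injective h3

theorem at_zero (m : ℕ) : EG m 0 (fun G => (lam G : ℝ)) = 0 := by
  unfold EG
  refine Finset.sum_eq_zero fun G _ => ?_
  by_cases h : G.edgeSet.ncard = 0
  · simp only [lam_of_empty G h]; simp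
  · unfold wt
    rw [zero_pow h]; simp

theorem at_one (hL : S_LAM) (m : ℕ) : EG m 1 (fun G => (lam G : ℝ)) = ((m - 1 : ℕ) : ℝ) := by
  have h1 : EG m 1 (fun G => (lam G : ℝ)) = EG m 1 (fun _ => (((m - 1 : ℕ) : ℝ))) := by
    unfold EG
    refine Finset.sum_congr rfl fun G _ => ?_
    by_cases h : m.choose 2 ≤ G.edgeSet.ncard
    · simp only [eq_top G h, hL.2.2.2.2.2 m]
    · unfold wt
      have h2 : m.choose 2 - G.edgeSet.ncard ≠ 0 := by omega
      rw [sub_self, zero_pow h2]; simp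
  rw [h1]
  exact EG_const oneT m 1 _

theorem pex : S_LAM → S_PEX := by
  intro hL n d hd hn
  have hc : ContinuousOn (fun p : ℝ => EG (n - d) p (fun G => (lam G : ℝ))) (Set.Icc 0 1) :=
    (cont_EG _ _).continuousOn
  have h := intermediate_value_Icc (zero_le_one' ℝ) hc
  have hmem : ((n : ℝ) - 2 * d) ∈ Set.Icc (EG (n - d) 0 (fun G => (lam G : ℝ)))
      (EG (n - d) 1 (fun G => (lam G : ℝ))) := by
    rw [at_zero, at_one hL]
    have h1 : ((n - d - 1 : ℕ) : ℝ) = (n : ℝ) - d - 1 := by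
      rw [Nat.cast_sub (by omega), Nat.cast_sub (by omega)]; simp
    have h2 : (2 : ℝ) * d ≤ n := by exact_mod_cast hn
    have h3 : (1 : ℝ) ≤ d := by exact_mod_cast hd
    rw [h1]
    constructor <;> linarith
  obtain ⟨p, hp, hpe⟩ := h hmem
  exact ⟨p, hp.1, hp.2, hpe⟩

end

end Pool.Agent.W705.HC
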