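import Pool.Agent.W705.HC.Close

set_option autoImplicit false
open scoped Classical
open Filter Topology
open scoped BigOperators

namespace Pool.Agent.W705.HC

open Pool.Agent.W845.PM Pool.Agent.W845.HC

noncomputable section

theorem rot_adj {V : Type} (F : SimpleGraph V) (x z a v w : V) :
    ((F \ SimpleGraph.edge z a) ⊔ SimpleGraph.edge x z).Adj v w ↔
      (F.Adj v w ∧ ¬ ((v = z ∧ w = a) ∨ (v = a ∧ w = z))) ∨
        (((v = x ∧ w = z) ∨ (v = z ∧ w = x)) ∧ v ≠ w) := by
  rw [SimpleGraph.sup_adj, SimpleGraph.sdiff_adj, SimpleGraph.edge_adj, SimpleGraph.edge_adj]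
  constructor
  · rintro (⟨h1, h2⟩ | ⟨h1, h2⟩)
    · exact Or.inl ⟨h1, fun h => h2 ⟨h, h1.ne⟩⟩
    · exact Or.inr ⟨h1, h2⟩
  · rintro (⟨h1, h2⟩ | ⟨h1, h2⟩)
    · exact Or.inl ⟨h1, fun h => h2 h.1⟩
    · exact Or.inr ⟨h1, h2⟩

theorem dg_le_card {V : Type} [Fintype V] (F1 : SimpleGraph V) (v : V) (s : Finset V)
    (h : ∀ w, F1.Adj v w → w ∈ s) : dg F1 v ≤ s.card := by
  unfold dg
  refine Finset.card_le_card ?_
  intro w hw
  exact h w (Finset.mem_filter.1 hw).2

theorem dg_mono' {V : Type} [Fintype V] (F1 F : SimpleGraph V) (v : V)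
    (h : ∀ w, F1.Adj v w → F.Adj v w) : dg F1 v ≤ dg F v := by
  refine dg_le_card F1 v _ ?_
  intro w hw
  rw [Finset.mem_filter]
  exact ⟨Finset.mem_univ _, h w hw⟩

theorem dg_insert {V : Type} [Fintype V] (F1 F : SimpleGraph V) (v z : V)
    (h : ∀ w, F1.Adj v w → F.Adj v w ∨ w = z) : dg F1 v ≤ dg F v + 1 := by
  refine (dg_le_card F1 v (insert z (Finset.univ.filter (fun w => F.Adj v w))) ?_).trans
    (Finset.card_insert_le _ _)
  intro w hw
  rw [Finset.mem_insert, Finset.mem_filter]
  rcases h w hw with h | h
  · exact Or.inr ⟨Finset.mem_univ _, h⟩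
  · exact Or.inl h

theorem dg_swap {V : Type} [Fintype V] (F1 F : SimpleGraph V) (v a x : V) (hva : F.Adj v a)
    (h : ∀ w, F1.Adj v w → (F.Adj v w ∧ w ≠ a) ∨ w = x) : dg F1 v ≤ dg F v := by
  have h3 : a ∈ Finset.univ.filter (fun w => F.Adj v w) := by simpa using hva
  have h4 := Finset.card_erase_add_one h3
  have h5 := dg_le_card F1 v (insert x ((Finset.univ.filter (fun w => F.Adj v w)).erase a)) (by
    intro w hw
    rw [Finset.mem_insert, Finset.mem_erase, Finset.mem_filter]
    rcases h w hw with h | h
    · exact Or.inr ⟨h.2, Finset.mem_univ _, h.1⟩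
    · exact Or.inl h)
  have h6 := Finset.card_insert_le x ((Finset.univ.filter (fun w => F.Adj v w)).erase a)
  have h7 : dg F v = (Finset.univ.filter (fun w => F.Adj v w)).card := rfl
  omega

theorem dg_erase {V : Type} [Fintype V] (F1 F : SimpleGraph V) (v a : V) (hva : F.Adj v a)
    (h : ∀ w, F1.Adj v w → F.Adj v w ∧ w ≠ a) : dg F1 v + 1 ≤ dg F v := by
  have h3 : a ∈ Finset.univ.filter (fun w => F.Adj v w) := by simpa using hva
  have h4 := Finset.card_erase_add_one h3
  have h5 := dg_le_card F1 v ((Finset.univ.filter (fun w => F.Adj v w)).erase a) (by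
    intro w hw
    rw [Finset.mem_erase, Finset.mem_filter]
    exact ⟨(h w hw).2, Finset.mem_univ _, (h w hw).1⟩)
  have h7 : dg F v = (Finset.univ.filter (fun w => F.Adj v w)).card := rfl
  omega

theorem r2 : S_FC → S_CLOSE → S_R2 := by
  intro hFC hCL V _ G F x y z hV hG hFG hF hec hxy hx hy hxz hnxz
  have hconn := connected_of hFC F hF.1 (by omega) hec
  have hzy : z ≠ y := by
    rintro rfl
    exact hG (hCL V F G x z hV hF hec hxy hx hy hFG hxz)
  have hzx : x ≠ z := hxz.ne
  obtain ⟨p, hp⟩ := (hconn z x).exists_isPath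
  cases p with
  | nil => exact absurd rfl hzx
  | @cons _ a _ hza p' =>
    rw [SimpleGraph.Walk.cons_isPath_iff] at hp
    obtain ⟨hp', hznot⟩ := hp
    have hax : a ≠ x := by
      rintro rfl
      exact hnxz hza.symm
    have haz : a ≠ z := hza.ne'
    have hlen : 0 < p'.length := by
      rcases Nat.eq_zero_or_pos p'.length with h | h
      · exact absurd (SimpleGraph.Walk.eq_of_length_eq_zero h) hax
      · exact h
    have hb := p'.adj_getVert_succ hlen
    rw [SimpleGraph.Walk.getVert_zero] at hb
    have hbz : p'.getVert (0 + 1) ≠ z := by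
      intro h
      apply hznot
      rw [← h]
      exact p'.getVert_mem_support _
    have hda : 2 ≤ dg F a := dg_two F a z _ hza.symm hb hbz.symm
    have hya : y ≠ a := by
      rintro rfl
      omega
    refine ⟨a, hza, _, rfl, ?_, ?_, ?_, hya, ?_, ?_⟩
    · refine sup_le (sdiff_le.trans hFG) ?_
      rw [SimpleGraph.edge_le_iff]
      exact Or.inr hxz
    · refine ⟨?_, ?_⟩
      · refine SimpleGraph.IsAcyclic.sup_edge_of_not_reachable ?_ (hF.1.anti sdiff_le)
        intro hr
        have hbr := SimpleGraph.isAcyclic_iff_forall_adj_isBridge.1 hF.1 hza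
        rw [SimpleGraph.isBridge_iff] at hbr
        apply hbr
        have h1 : (F.deleteEdges {s(z, a)}).Reachable a x := by
          rw [SimpleGraph.reachable_deleteEdges_iff_exists_walk]
          refine ⟨p', fun h => hznot ?_⟩
          exact p'.fst_mem_support_of_mem_edges h
        have h2 : (F.deleteEdges {s(z, a)}).Reachable x z := hr
        exact (h1.trans h2).symm
      · intro v
        by_cases hvx : v = x
        · have h1 : dg ((F \ SimpleGraph.edge z a) ⊔ SimpleGraph.edge x z) v ≤ dg F v + 1 := by
            refine dg_insert _ F v z ?_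
            intro w hw
            rw [rot_adj] at hw
            rcases hw with h | h
            · exact Or.inl h.1
            · rcases h.1 with h3 | h3
              · exact Or.inr h3.2
              · exact absurd (hvx.symm.trans h3.1) hzx
          rw [hvx] at h1 ⊢
          omega
        · by_cases hvz : v = z
          · have h1 : dg ((F \ SimpleGraph.edge z a) ⊔ SimpleGraph.edge x z) v ≤ dg F v := by
              refine dg_swap _ F v a x (by rw [hvz]; exact hza) ?_
              intro w hw
              rw [rot_adj] at hw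
              rcases hw with h | h
              · exact Or.inl ⟨h.1, fun h3 => h.2 (Or.inl ⟨hvz, h3⟩)⟩
              · rcases h.1 with h3 | h3
                · exact absurd h3.1 hvx
                · exact Or.inr h3.2
            exact h1.trans (hF.2 v)
          · have h1 : dg ((F \ SimpleGraph.edge z a) ⊔ SimpleGraph.edge x z) v ≤ dg F v := by
              refine dg_mono' _ F v ?_
              intro w hw
              rw [rot_adj] at hw
              rcases hw with h | h
              · exact h.1
              · rcases h.1 with h3 | h3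
                · exact absurd h3.1 hvx
                · exact absurd h3.1 hvz
            exact h1.trans (hF.2 v)
    · unfold ec at hec ⊢
      have h1 : ((F \ SimpleGraph.edge z a) ⊔ SimpleGraph.edge x z).edgeSet =
          insert s(x, z) (F.edgeSet \ {s(z, a)}) := by
        rw [SimpleGraph.edgeSet_sup, SimpleGraph.edgeSet_sdiff,
          SimpleGraph.edgeSet_edge_of_ne hza.ne, SimpleGraph.edgeSet_edge_of_ne hzx,
          Set.union_singleton]
      have h2 : s(x, z) ∉ F.edgeSet \ {s(z, a)} := fun h => hnxz h.1
      rw [h1, Set.ncard_insert_of_notMem h2 (Set.toFinite _),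
        Set.ncard_sdiff_singleton_of_mem (show s(z, a) ∈ F.edgeSet from hza)]
      omega
    · have h1 : dg ((F \ SimpleGraph.edge z a) ⊔ SimpleGraph.edge x z) y ≤ dg F y := by
        refine dg_mono' _ F y ?_
        intro w hw
        rw [rot_adj] at hw
        rcases hw with h | h
        · exact h.1
        · rcases h.1 with h3 | h3
          · exact absurd h3.1.symm hxy
          · exact absurd h3.1.symm hzy
      exact h1.trans hy
    · have h1 : dg ((F \ SimpleGraph.edge z a) ⊔ SimpleGraph.edge x z) a + 1 ≤ dg F a := by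
        refine dg_erase _ F a z hza.symm ?_
        intro w hw
        rw [rot_adj] at hw
        rcases hw with h | h
        · exact ⟨h.1, fun h3 => h.2 (Or.inr ⟨rfl, h3⟩)⟩
        · rcases h.1 with h3 | h3
          · exact absurd h3.1 hax
          · exact absurd h3.1 haz
      have := hF.2 a
      omega

end

end Pool.Agent.W705.HC
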