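import Pool.Agent.W845.HC.Base

set_option autoImplicit false
open scoped Classical
open Filter Topology
open scoped BigOperators

namespace Pool.Agent.W705.HC

open Pool.Agent.W845.PM Pool.Agent.W845.HC

noncomputable section

theorem minDeg_mono {n : ℕ} (G H : SimpleGraph (Fin n)) (h : G ≤ H) :
    G.minDegree ≤ H.minDegree := by
  exact SimpleGraph.minDegree_le_minDegree h

/-- the indicator of not being Hamiltonian -/
def nh {n : ℕ} (G : SimpleGraph (Fin n)) : ℝ := if G.IsHamiltonian then (0 : ℝ) else 1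

theorem nh_le_one {n : ℕ} (G : SimpleGraph (Fin n)) : nh G ≤ 1 := by
  unfold nh; split_ifs <;> norm_num

theorem ham_of_dft {n : ℕ} (hL : S_LAM) (hn : 3 ≤ n) (G : SimpleGraph (Fin n)) (h : dft G = 0) :
    G.IsHamiltonian := by
  by_contra hG
  have h1 := hL.2.2.2.1 (Fin n) G
  unfold dft at h
  split_ifs at h with h2
  · exact hG (by convert h2)
  · rw [Fintype.card_fin] at h h1
    omega

theorem merge_aux (hL : S_LAM) (hSUP : S_SUP) (hD : S_DMONO) (hR : S_ROUND) (n s : ℕ) (q : ℝ)
    (hn : 3 ≤ n) (hs : 1 ≤ s) (hq0 : 0 ≤ q) (hq1 : q ≤ 1)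
    (hE : Real.exp (-(q * ((s : ℝ) - 1) ^ 2 / 8)) ≤ 1 / 2) (T : ℕ) :
    ∀ G : SimpleGraph (Fin n), s ≤ G.minDegree →
      EG n (1 - (1 - q) ^ T) (fun G' => nh (G ⊔ G')) ≤ (7 / 10 : ℝ) ^ T * Real.exp (dft G) := by
  have h1q : 0 ≤ 1 - q := by linarith
  have hpT : ∀ T : ℕ, 0 ≤ 1 - (1 - q) ^ T ∧ 1 - (1 - q) ^ T ≤ 1 := by
    intro T
    have h2 : (1 - q) ^ T ≤ 1 := pow_le_one₀ h1q (by linarith)
    have h3 : 0 ≤ (1 - q) ^ T := pow_nonneg h1q T
    constructor <;> linarith
  induction T with
  | zero =>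
    intro G _
    have h2 := EG_mono (hpT 0).1 (hpT 0).2 (fun G' => nh_le_one (G ⊔ G'))
    rw [EG_const oneT] at h2
    have h3 : (1 : ℝ) ≤ Real.exp (dft G) := Real.one_le_exp (Nat.cast_nonneg _)
    have h4 : (7 / 10 : ℝ) ^ 0 * Real.exp (dft G) = Real.exp (dft G) := by
      rw [pow_zero, one_mul]
    rw [h4]
    exact h2.trans h3
  | succ T ih =>
    intro G hG
    rcases Nat.eq_zero_or_pos (dft G) with h0 | h0
    · have hH := ham_of_dft hL hn G h0
      have h2 : ∀ G' : SimpleGraph (Fin n), nh (G ⊔ G') = 0 := by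
        intro G'
        unfold nh
        rw [if_pos (hH.mono le_sup_left)]
      simp only [h2]
      rw [EG_const oneT]
      positivity
    · have h2 : (1 - (1 - q) ^ (T + 1) : ℝ) = q + (1 - (1 - q) ^ T) - q * (1 - (1 - q) ^ T) := by
        rw [pow_succ]; ring
      rw [h2, ← hSUP]
      have h3 : EG n q (fun G1 => EG n (1 - (1 - q) ^ T) (fun G2 => nh (G ⊔ (G1 ⊔ G2)))) ≤
          EG n q (fun G1 => (7 / 10 : ℝ) ^ T * Real.exp (dft (G ⊔ G1))) := by
        refine EG_mono hq0 hq1 ?_
        intro G1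
        have h4 := ih (G ⊔ G1) (hG.trans (minDeg_mono G (G ⊔ G1) le_sup_left))
        simp only [← sup_assoc]
        exact h4
      refine h3.trans ?_
      rw [EG_mul_left, pow_succ, mul_assoc]
      refine mul_le_mul_of_nonneg_left ?_ (by positivity)
      have h5 := hR n s q G hn hs hG h0 hq0 hq1
      set d : ℝ := (dft G : ℝ) with hd
      have h6 : ∀ G1 : SimpleGraph (Fin n), Real.exp (dft (G ⊔ G1)) ≤
          Real.exp (d - 1) + (Real.exp d - Real.exp (d - 1)) *
            (if dft (G ⊔ G1) < dft G then (0 : ℝ) else 1) := by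
        intro G1
        split_ifs with h7
        · rw [mul_zero, add_zero]
          apply Real.exp_le_exp.2
          have : (dft (G ⊔ G1) : ℝ) + 1 ≤ d := by
            rw [hd]; exact_mod_cast h7
          linarith
        · rw [mul_one]
          have h8 := hD (Fin n) G (G ⊔ G1) le_sup_left
          have h9 : Real.exp (dft (G ⊔ G1)) ≤ Real.exp d := by
            apply Real.exp_le_exp.2
            rw [hd]; exact_mod_cast h8
          linarith
      have h7 := EG_mono hq0 hq1 h6
      rw [EG_add, EG_const oneT, EG_mul_left] at h7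
      refine h7.trans ?_
      have h8 : Real.exp (d - 1) = Real.exp d * Real.exp (-1) := by
        rw [← Real.exp_add]; ring_nf
      have h9 : Real.exp (-1) ≤ 4 / 10 := by
        rw [Real.exp_neg, inv_le_comm₀ (Real.exp_pos _) (by norm_num)]
        have := Real.exp_one_gt_d9
        linarith
      have h10 : 0 < Real.exp d := Real.exp_pos d
      have h11 : 0 ≤ Real.exp d - Real.exp (d - 1) := by
        rw [h8]; nlinarith
      have h12 := mul_le_mul_of_nonneg_left (h5.trans hE) h11
      have h13 : Real.exp (d - 1) + (Real.exp d - Real.exp (d - 1)) * (1 / 2) ≤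
          7 / 10 * Real.exp d := by
        rw [h8]; nlinarith
      linarith

theorem merge : S_LAM → S_SUP → S_DMONO → S_ROUND → S_MERGE := by
  intro hL hSUP hD hR n s q hn hs hq0 hq1 hE T G hG
  exact merge_aux hL hSUP hD hR n s q hn hs hq0 hq1 hE T G hG

end

end Pool.Agent.W705.HC
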